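import Mathlib
import Pool.Agent.H548.BL.Main

/-!
Systems of bilinear equations between the vertices of a graph: definitions.
-/

namespace Pool.Agent.R546.GW

open Finset Module Matrix

variable {m : ℕ} {n : Fin m → ℕ}

/-- The number of the neighbours of a vertex. -/
noncomputable def dg (G : SimpleGraph (Fin m)) (v : Fin m) : ℕ := Nat.card {u // G.Adj v u}

/-- The vector `x_u ᵀ M_{u v}` of the coefficients of the equation of the edge `u v` as a linear
equation for `x_v`. -/
def cf (M : ∀ u v : Fin m, Matrix (Fin (n u)) (Fin (n v)) ℤ) (x : ∀ v, Fin (n v) → ℤ)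
    (u v : Fin m) : Fin (n v) → ℤ := x u ᵥ* M u v

/-- The equations `x_u ᵀ M_{u v} x_v = 0` of the edges. -/
def Inc (G : SimpleGraph (Fin m)) (M : ∀ u v : Fin m, Matrix (Fin (n u)) (Fin (n v)) ℤ)
    (x : ∀ v, Fin (n v) → ℤ) : Prop := ∀ u v, G.Adj u v → cf M x u v ⬝ᵥ x v = 0

/-- At every vertex the linear equations of the edges are linearly independent. -/
def InU (G : SimpleGraph (Fin m)) (M : ∀ u v : Fin m, Matrix (Fin (n u)) (Fin (n v)) ℤ)
    (x : ∀ v, Fin (n v) → ℤ) : Prop :=
  ∀ v, LinearIndependent ℤ (fun u : {u // G.Adj v u} => cf M x u.1 v)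

/-- The rank condition: `rank M_{u v} ≥ deg u + 2 deg v - 1` for adjacent `u`, `v`. -/
def RankCond (G : SimpleGraph (Fin m)) (M : ∀ u v : Fin m, Matrix (Fin (n u)) (Fin (n v)) ℤ) :
    Prop :=
  ∀ u v, G.Adj u v → dg G u + 2 * dg G v ≤ ((M u v).map (Int.cast : ℤ → ℝ)).rank + 1

/-- Deletion of the edges at a vertex. -/
def del (G : SimpleGraph (Fin m)) (v : Fin m) : SimpleGraph (Fin m) where
  Adj a b := G.Adj a b ∧ a ≠ v ∧ b ≠ v
  symm := ⟨fun _ _ h => ⟨h.1.symm, h.2.2, h.2.1⟩⟩
  loopless := ⟨fun _ h => h.1.ne rfl⟩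

theorem del_adj {G : SimpleGraph (Fin m)} {v a b : Fin m} :
    (del G v).Adj a b ↔ G.Adj a b ∧ a ≠ v ∧ b ≠ v := Iff.rfl

open Classical in
theorem dg_eq (G : SimpleGraph (Fin m)) (v : Fin m) :
    dg G v = (univ.filter fun u => G.Adj v u).card := by
  unfold dg
  rw [Nat.card_eq_fintype_card, Fintype.card_subtype]

open Classical in
theorem dg_eq' (G : SimpleGraph (Fin m)) (v : Fin m) :
    Fintype.card {u // G.Adj v u} = dg G v := by
  unfold dg
  rw [Nat.card_eq_fintype_card]

theorem dg_le (G : SimpleGraph (Fin m)) (v : Fin m) : dg G v ≤ m := by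
  classical
  rw [dg_eq]
  have := Finset.card_le_univ (univ.filter fun u => G.Adj v u)
  rwa [Fintype.card_fin] at this

theorem dg_pos {G : SimpleGraph (Fin m)} {u v : Fin m} (h : G.Adj u v) : 1 ≤ dg G u := by
  classical
  rw [dg_eq, Nat.one_le_iff_ne_zero, Finset.card_ne_zero]
  exact ⟨v, by simpa using h⟩

theorem dg_del_le (G : SimpleGraph (Fin m)) (v w : Fin m) : dg (del G v) w ≤ dg G w := by
  classical
  rw [dg_eq, dg_eq]
  apply Finset.card_le_card
  intro u hu
  simp only [mem_filter, mem_univ, true_and] at hu ⊢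
  exact hu.1

theorem dg_del_self (G : SimpleGraph (Fin m)) (v : Fin m) : dg (del G v) v = 0 := by
  classical
  rw [dg_eq, Finset.card_eq_zero, Finset.filter_eq_empty_iff]
  intro u _ h
  exact h.2.1 rfl

open Classical in
theorem le_dg_del (G : SimpleGraph (Fin m)) {v w : Fin m} (h : w ≠ v) :
    dg G w ≤ dg (del G v) w + (if G.Adj v w then 1 else 0) := by
  rw [dg_eq, dg_eq]
  split_ifs with hvw
  · have h1 : (univ.filter fun u => G.Adj w u) ⊆
        insert v (univ.filter fun u => (del G v).Adj w u) := by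
      intro u hu
      simp only [mem_filter, mem_univ, true_and, mem_insert] at hu ⊢
      by_cases huv : u = v
      · exact Or.inl huv
      · exact Or.inr ⟨hu, h, huv⟩
    exact (Finset.card_le_card h1).trans (Finset.card_insert_le _ _)
  · rw [add_zero]
    apply Finset.card_le_card
    intro u hu
    simp only [mem_filter, mem_univ, true_and] at hu ⊢
    refine ⟨hu, h, ?_⟩
    rintro rfl
    exact hvw hu.symm

theorem card_nbr_ne {G : SimpleGraph (Fin m)} {u v : Fin m} (h : G.Adj u v) :
    Nat.card {w // G.Adj u w ∧ w ≠ v} + 1 = dg G u := by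
  classical
  rw [dg_eq, Nat.card_eq_fintype_card, Fintype.card_subtype]
  have h1 : (univ.filter fun w => G.Adj u w) =
      insert v (univ.filter fun w => G.Adj u w ∧ w ≠ v) := by
    ext w
    simp only [mem_filter, mem_univ, true_and, mem_insert]
    constructor
    · intro hw
      by_cases hwv : w = v
      · exact Or.inl hwv
      · exact Or.inr ⟨hw, hwv⟩
    · rintro (rfl | hw)
      · exact h
      · exact hw.1
  rw [h1, Finset.card_insert_of_notMem]
  simp

end Pool.Agent.R546.GW
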