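import Mathlib
import Pool.Agent.R546.GW.Defs

/-!
The number of the vectors at a vertex `v` for which the equations at a neighbour `u` become
dependent.
-/

namespace Pool.Agent.R546.GW

open Finset Module Matrix
open Pool.Agent.H548.WM (ht bx mem_bx)
open Pool.Agent.H548.BL (rc lat mem_lat lat_doubling doubling)

variable {m : ℕ} {n : Fin m → ℕ}

theorem rc_add {N : ℕ} (a b : Fin N → ℤ) : rc (a + b) = rc a + rc b := by
  funext i
  simp [rc]

theorem rc_neg {N : ℕ} (a : Fin N → ℤ) : rc (-a) = -rc a := by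
  funext i
  simp [rc]

theorem rc_zero {N : ℕ} : rc (0 : Fin N → ℤ) = 0 := by
  funext i
  simp [rc]

/-- `rc` as a homomorphism. -/
def rcHom (N : ℕ) : (Fin N → ℤ) →+ (Fin N → ℝ) where
  toFun := rc
  map_zero' := rc_zero
  map_add' := rc_add

theorem rc_vecMul {N K : ℕ} (a : Fin N → ℤ) (A : Matrix (Fin N) (Fin K) ℤ) :
    rc (a ᵥ* A) = rc a ᵥ* A.map (Int.cast : ℤ → ℝ) := by
  funext i
  simp [rc, Matrix.vecMul, dotProduct]

theorem rc_cf_symm {M : ∀ u v : Fin m, Matrix (Fin (n u)) (Fin (n v)) ℤ}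
    (hM : ∀ u v, M v u = (M u v)ᵀ) (z : ∀ v, Fin (n v) → ℤ) (u v : Fin m) :
    rc (cf M z v u) = (((M u v).map (Int.cast : ℤ → ℝ)).mulVecLin) (rc (z v)) := by
  unfold cf
  rw [rc_vecMul, hM u v, Matrix.mulVecLin_apply]
  rw [show ((M u v)ᵀ.map (Int.cast : ℤ → ℝ)) = ((M u v).map (Int.cast : ℤ → ℝ))ᵀ from rfl]
  rw [Matrix.vecMul_transpose]

/-- The real vectors `z` with `M z` in a given subspace. -/
theorem finrank_comap_le {N K : ℕ} (A : Matrix (Fin K) (Fin N) ℝ) (S : Submodule ℝ (Fin K → ℝ)) :
    finrank ℝ (S.comap A.mulVecLin) ≤ finrank ℝ S + (N - A.rank) := by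
  have h1 := LinearMap.finrank_range_add_finrank_ker (A.mulVecLin.domRestrict (S.comap A.mulVecLin))
  have h2 : finrank ℝ (LinearMap.range (A.mulVecLin.domRestrict (S.comap A.mulVecLin))) ≤
      finrank ℝ S := by
    apply Submodule.finrank_mono
    rintro _ ⟨y, rfl⟩
    exact y.2
  have h3 : finrank ℝ (LinearMap.ker (A.mulVecLin.domRestrict (S.comap A.mulVecLin))) ≤
      finrank ℝ (LinearMap.ker A.mulVecLin) := by
    let f : LinearMap.ker (A.mulVecLin.domRestrict (S.comap A.mulVecLin)) →ₗ[ℝ]
        LinearMap.ker A.mulVecLin :=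
      { toFun := fun x => ⟨x.1.1, by
          have := x.2
          rw [LinearMap.mem_ker] at this ⊢
          exact this⟩
        map_add' := fun _ _ => rfl
        map_smul' := fun _ _ => rfl }
    apply LinearMap.finrank_le_finrank_of_injective (f := f)
    intro x y hxy
    have := congrArg Subtype.val hxy
    exact Subtype.ext (Subtype.ext this)
  have h4 := LinearMap.finrank_range_add_finrank_ker A.mulVecLin
  rw [finrank_fintype_fun_eq_card, Fintype.card_fin] at h4
  have h5 : finrank ℝ (LinearMap.range A.mulVecLin) = A.rank := rfl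
  omega

open Classical in
/-- The number of the bad vectors. -/
theorem bad_card {G : SimpleGraph (Fin m)} {M : ∀ u v : Fin m, Matrix (Fin (n u)) (Fin (n v)) ℤ}
    (hM : ∀ u v, M v u = (M u v)ᵀ) (hR : RankCond G M) {u v : Fin m} (huv : G.Adj u v)
    (y : ∀ v, Fin (n v) → ℤ)
    (hy : LinearIndependent ℤ (fun w : {w // (del G v).Adj u w} => cf M y w.1 u))
    {ρ : ℕ} (hρ : 1 ≤ ρ) :
    (((bx (n v) ρ).filter fun z => ¬ LinearIndependent ℤ
      (fun w : {w // G.Adj u w} => cf M (Function.update y v z) w.1 u)).card : ℝ) ≤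
      (3 * (ρ : ℝ)) ^ (n v - 2 * dg G v) * 3 ^ (n v) := by
  set A : Matrix (Fin (n u)) (Fin (n v)) ℝ := (M u v).map (Int.cast : ℤ → ℝ) with hA
  set S : Submodule ℝ (Fin (n u) → ℝ) :=
    Submodule.span ℝ ((fun w => rc (cf M y w u)) '' {w | G.Adj u w ∧ w ≠ v}) with hS
  have hSr : finrank ℝ S + 1 ≤ dg G u := by
    have h1 : finrank ℝ S ≤ Nat.card {w // G.Adj u w ∧ w ≠ v} := by
      have h2 : S = Submodule.span ℝ (Set.range fun w : {w // G.Adj u w ∧ w ≠ v} =>
          rc (cf M y w.1 u)) := by
        rw [hS]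
        congr 1
        ext a
        simp
      rw [h2, Nat.card_eq_fintype_card]
      exact finrank_range_le_card _
    have h2 := card_nbr_ne huv
    omega
  have hV : finrank ℝ (S.comap A.mulVecLin) ≤ n v - 2 * dg G v := by
    have h1 := finrank_comap_le A S
    have h2 := hR u v huv
    have h3 : A.rank ≤ n v := by
      have := Matrix.rank_le_width A
      exact this
    rw [← hA] at h2
    have h4 := dg_pos huv
    omega
  let Λ : AddSubgroup (Fin (n v) → ℤ) :=
    ((S.comap A.mulVecLin).toAddSubgroup).comap (rcHom (n v))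
  have hΛ : ∀ z, z ∈ Λ ↔ rc z ∈ S.comap A.mulVecLin := fun z => Iff.rfl
  have hsub : ((bx (n v) ρ).filter fun z => ¬ LinearIndependent ℤ
      (fun w : {w // G.Adj u w} => cf M (Function.update y v z) w.1 u)) ⊆
      (bx (n v) ρ).filter (· ∈ Λ) := by
    intro z hz
    rw [mem_filter] at hz ⊢
    refine ⟨hz.1, ?_⟩
    rw [hΛ, Submodule.mem_comap]
    by_contra hcon
    apply hz.2
    rw [← linearIndependent_algebraMap_comp_iff (R := ℤ) (S := ℝ)]
    set F : Fin m → (Fin (n u) → ℝ) := fun w => rc (cf M (Function.update y v z) w u) with hF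
    show LinearIndependent ℝ (fun w : {w // G.Adj u w} => F w.1)
    have hins : {w | G.Adj u w} = insert v {w | G.Adj u w ∧ w ≠ v} := by
      ext w
      simp only [Set.mem_ofPred_eq, Set.mem_insert_iff]
      constructor
      · intro hw
        by_cases hwv : w = v
        · exact Or.inl hwv
        · exact Or.inr ⟨hw, hwv⟩
      · rintro (rfl | hw)
        · exact huv
        · exact hw.1
    have hne : ∀ w, w ≠ v → F w = rc (cf M y w u) := by
      intro w hw
      simp only [hF]
      unfold cf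
      rw [Function.update_of_ne hw]
    have hmain : LinearIndepOn ℝ F {w | G.Adj u w} := by
      rw [hins, linearIndepOn_insert (by simp)]
      constructor
      · have h1 : LinearIndependent ℝ (fun w : {w // (del G v).Adj u w} => rc (cf M y w.1 u)) :=
          (linearIndependent_algebraMap_comp_iff (R := ℤ) (S := ℝ)
            (v := fun w : {w // (del G v).Adj u w} => cf M y w.1 u)).2 hy
        let e : {w // G.Adj u w ∧ w ≠ v} → {w // (del G v).Adj u w} := fun w =>
          ⟨w.1, w.2.1, huv.ne, w.2.2⟩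
        have he : Function.Injective e := by
          intro a b hab
          have hab2 := congrArg Subtype.val hab
          exact Subtype.ext hab2
        have h2 := h1.comp e he
        have h3 : (fun w : ({w | G.Adj u w ∧ w ≠ v} : Set (Fin m)) => F w) =
            (fun w : {w // (del G v).Adj u w} => rc (cf M y w.1 u)) ∘ e := by
          funext w
          exact hne w.1 w.2.2
        show LinearIndependent ℝ (fun w : ({w | G.Adj u w ∧ w ≠ v} : Set (Fin m)) => F w)
        rw [h3]
        exact h2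
      · have h4 : F v = A.mulVecLin (rc z) := by
          simp only [hF]
          rw [rc_cf_symm hM, Function.update_self]
        have h5 : F '' {w | G.Adj u w ∧ w ≠ v} =
            (fun w => rc (cf M y w u)) '' {w | G.Adj u w ∧ w ≠ v} := by
          apply Set.image_congr
          intro w hw
          exact hne w hw.2
        rw [h4, h5]
        exact hcon
    exact hmain
  have h1 := doubling Λ (S.comap A.mulVecLin) hV (fun z hz => (hΛ z).1 hz) ρ 1 le_rfl hρ
  have h2 : (((bx (n v) 1).filter (· ∈ Λ)).card : ℝ) ≤ 3 ^ (n v) := by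
    have h3 := Finset.card_filter_le (bx (n v) 1) (· ∈ Λ)
    have h4 := Pool.Agent.H548.WM.card_bx_le (n v) (X := 1) le_rfl
    have h5 : (((bx (n v) 1).filter (· ∈ Λ)).card : ℝ) ≤ ((bx (n v) 1).card : ℝ) := by
      exact_mod_cast h3
    calc (((bx (n v) 1).filter (· ∈ Λ)).card : ℝ) ≤ (bx (n v) 1).card := h5
      _ ≤ (3 * ((1 : ℕ) : ℝ)) ^ (n v) := h4
      _ = 3 ^ (n v) := by norm_num
  calc (((bx (n v) ρ).filter fun z => ¬ LinearIndependent ℤ
      (fun w : {w // G.Adj u w} => cf M (Function.update y v z) w.1 u)).card : ℝ)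
      ≤ ((bx (n v) ρ).filter (· ∈ Λ)).card := by exact_mod_cast card_le_card hsub
    _ ≤ (3 * (ρ : ℝ) / ((1 : ℕ) : ℝ)) ^ (n v - 2 * dg G v) *
        (((bx (n v) 1).filter (· ∈ Λ)).card : ℝ) := h1
    _ ≤ (3 * (ρ : ℝ) / ((1 : ℕ) : ℝ)) ^ (n v - 2 * dg G v) * 3 ^ (n v) := by gcongr
    _ = _ := by rw [Nat.cast_one, div_one]

end Pool.Agent.R546.GW
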