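import Mathlib
import Pool.Agent.R546.GW.Bad

/-!
Under the rank condition the open set of the points at which the equations are independent is
not empty.
-/

namespace Pool.Agent.R546.GW

open Finset Module Matrix
open Pool.Agent.H548.BL (rc)

variable {m : ℕ} {n : Fin m → ℕ}

/-- Rational vectors as real vectors. -/
def qr (N : ℕ) : (Fin N → ℚ) →ₗ[ℚ] (Fin N → ℝ) where
  toFun y := fun j => (y j : ℝ)
  map_add' := by
    intro a b
    funext j
    simp
  map_smul' := by
    intro a b
    funext j
    simp [Rat.smul_def]

theorem qr_apply {N : ℕ} (y : Fin N → ℚ) (j : Fin N) : qr N y j = (y j : ℝ) := rfl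

/-- A rational subspace has integer points outside of finitely many real subspaces of smaller
dimension. -/
theorem avoid {N d : ℕ} (Y : Submodule ℚ (Fin N → ℚ)) (hY : d ≤ finrank ℚ Y) {ι : Type}
    [Finite ι] (B : ι → Submodule ℝ (Fin N → ℝ)) (hB : ∀ i, finrank ℝ (B i) < d) :
    ∃ z : Fin N → ℤ, (fun i => (z i : ℚ)) ∈ Y ∧ ∀ i, rc z ∉ B i := by
  set f : Y →ₗ[ℚ] (Fin N → ℝ) := (qr N).comp Y.subtype with hf
  set B' : ι → Submodule ℚ Y := fun i => ((B i).restrictScalars ℚ).comap f with hB'
  have h1 : ∀ i, B' i ≠ ⊤ := by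
    intro i htop
    set b := Module.finBasis ℚ Y with hb0
    have hb : LinearIndependent ℚ (fun j => ((b j : Y) : Fin N → ℚ)) :=
      b.linearIndependent.map' Y.subtype (Submodule.ker_subtype Y)
    have hb2 : LinearIndependent ℝ (fun j => f (b j)) :=
      (linearIndependent_algebraMap_comp_iff (R := ℚ) (S := ℝ)
        (v := fun j => ((b j : Y) : Fin N → ℚ))).2 hb
    have hb3 : ∀ j, f (b j) ∈ B i := by
      intro j
      have : b j ∈ B' i := by
        rw [htop]
        trivial
      exact this
    have hb4 : LinearIndependent ℝ (fun j => (⟨f (b j), hb3 j⟩ : B i)) :=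
      LinearIndependent.of_comp (B i).subtype hb2
    have h5 := hb4.fintype_card_le_finrank
    rw [Fintype.card_fin] at h5
    have := hB i
    omega
  obtain ⟨y, hy⟩ : ∃ y : Y, ∀ i, y ∉ B' i := by
    by_contra hcon
    push Not at hcon
    obtain ⟨i, hi⟩ := Subspace.exists_eq_top_of_iUnion_eq_univ (p := B') (by
      ext y
      simp only [Set.mem_iUnion, SetLike.mem_coe, Set.mem_univ, iff_true]
      exact hcon y)
    exact h1 i hi
  obtain ⟨c, hc⟩ := IsLocalization.exist_integer_multiples_of_finite (nonZeroDivisors ℤ)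
    (y : Fin N → ℚ)
  choose z hz using hc
  have hc0 : (c : ℤ) ≠ 0 := nonZeroDivisors.ne_zero c.2
  have hzq : (fun i => (z i : ℚ)) = ((c : ℤ) : ℚ) • (y : Fin N → ℚ) := by
    funext i
    have h2 := hz i
    rw [Pi.smul_apply, smul_eq_mul]
    rw [zsmul_eq_mul] at h2
    exact h2
  refine ⟨z, ?_, ?_⟩
  · rw [hzq]
    exact Y.smul_mem _ y.2
  · intro i hi
    apply hy i
    show f y ∈ B i
    have h3 : rc z = (((c : ℤ) : ℚ) : ℝ) • f y := by
      funext j
      have h4 := congrFun hzq j
      simp only [Pi.smul_apply, smul_eq_mul] at h4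
      rw [Pi.smul_apply, smul_eq_mul]
      show ((z j : ℤ) : ℝ) = (((c : ℤ) : ℚ) : ℝ) * (((y : Fin N → ℚ) j : ℚ) : ℝ)
      exact_mod_cast h4
    rw [h3] at hi
    have h5 : (((c : ℤ) : ℚ) : ℝ) ≠ 0 := by exact_mod_cast hc0
    exact (Submodule.smul_mem_iff _ h5).1 hi

open Classical in
/-- The kernel of a family of integer linear forms over the rationals. -/
theorem finrank_ker_forms {N : ℕ} {ι : Type} [Fintype ι] (g : ι → Fin N → ℤ) :
    N ≤ finrank ℚ (LinearMap.ker (Matrix.mulVecLin (Matrix.of fun i j => (g i j : ℚ)))) +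
      Fintype.card ι := by
  set A : Matrix ι (Fin N) ℚ := Matrix.of fun i j => (g i j : ℚ) with hA
  have h1 := LinearMap.finrank_range_add_finrank_ker A.mulVecLin
  rw [finrank_fintype_fun_eq_card, Fintype.card_fin] at h1
  have h2 : finrank ℚ (LinearMap.range A.mulVecLin) ≤ Fintype.card ι := by
    have h3 := Submodule.finrank_le (LinearMap.range A.mulVecLin)
    rwa [finrank_fintype_fun_eq_card] at h3
  omega

theorem mem_ker_forms {N : ℕ} {ι : Type} [Fintype ι] (g : ι → Fin N → ℤ) (z : Fin N → ℤ)
    (hz : (fun i => (z i : ℚ)) ∈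
      LinearMap.ker (Matrix.mulVecLin (Matrix.of fun i j => (g i j : ℚ)))) (i : ι) :
    g i ⬝ᵥ z = 0 := by
  rw [LinearMap.mem_ker, Matrix.mulVecLin_apply] at hz
  have h1 := congrFun hz i
  simp only [Matrix.mulVec, dotProduct, Matrix.of_apply, Pi.zero_apply] at h1
  rw [dotProduct]
  exact_mod_cast h1

open Classical in
/-- The points are constructed one vertex after another. -/
theorem exists_partial {G : SimpleGraph (Fin m)}
    {M : ∀ u v : Fin m, Matrix (Fin (n u)) (Fin (n v)) ℤ}
    (hM : ∀ u v, M v u = (M u v)ᵀ) (hR : RankCond G M) (hn : ∀ v, dg G v + 1 ≤ n v)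
    (s : Finset (Fin m)) :
    ∃ x : ∀ v, Fin (n v) → ℤ, (∀ u ∈ s, ∀ v ∈ s, G.Adj u v → cf M x u v ⬝ᵥ x v = 0) ∧
      (∀ v, LinearIndepOn ℝ (fun u => rc (cf M x u v)) {u | G.Adj v u ∧ u ∈ s}) ∧
      ∀ v ∈ s, x v ≠ 0 := by
  induction s using Finset.induction_on with
  | empty =>
    refine ⟨fun v _ => 0, ?_, ?_, ?_⟩
    · simp
    · intro v
      simp
    · simp
  | insert k s hk ih =>
    obtain ⟨x, h1, h2, h3⟩ := ih
    -- the rational subspace
    set ι := {u // G.Adj k u ∧ u ∈ s} with hι
    set g : ι → Fin (n k) → ℤ := fun u => cf M x u.1 k with hg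
    have hY := finrank_ker_forms g
    set Y := LinearMap.ker (Matrix.mulVecLin (Matrix.of fun i j => (g i j : ℚ))) with hYd
    have hcard : Fintype.card ι ≤ dg G k := by
      rw [← dg_eq']
      apply Fintype.card_le_of_injective (fun u : ι => (⟨u.1, u.2.1⟩ : {u // G.Adj k u}))
      intro a b hab
      have := congrArg Subtype.val hab
      exact Subtype.ext this
    -- the bad subspaces
    set S : Fin m → Submodule ℝ (Fin (n k) → ℝ) := fun w =>
      if G.Adj w k then
        (Submodule.span ℝ ((fun u => rc (cf M x u w)) '' {u | G.Adj w u ∧ u ∈ s})).comap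
          ((M w k).map (Int.cast : ℤ → ℝ)).mulVecLin
      else ⊥ with hS
    have hSr : ∀ w, finrank ℝ (S w) < n k - dg G k := by
      intro w
      have hnk := hn k
      by_cases hw : G.Adj w k
      · have hSw : S w = (Submodule.span ℝ ((fun u => rc (cf M x u w)) ''
            {u | G.Adj w u ∧ u ∈ s})).comap ((M w k).map (Int.cast : ℤ → ℝ)).mulVecLin := by
          rw [hS]
          exact if_pos hw
        rw [hSw]
        have e1 := finrank_comap_le ((M w k).map (Int.cast : ℤ → ℝ))
          (Submodule.span ℝ ((fun u => rc (cf M x u w)) '' {u | G.Adj w u ∧ u ∈ s}))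
        have e2 : finrank ℝ (Submodule.span ℝ ((fun u => rc (cf M x u w)) ''
            {u | G.Adj w u ∧ u ∈ s})) + 1 ≤ dg G w := by
          have e3 : Submodule.span ℝ ((fun u => rc (cf M x u w)) '' {u | G.Adj w u ∧ u ∈ s}) ≤
              Submodule.span ℝ (Set.range fun u : {u // G.Adj w u ∧ u ≠ k} =>
                rc (cf M x u.1 w)) := by
            apply Submodule.span_mono
            rintro _ ⟨u, ⟨hu1, hu2⟩, rfl⟩
            refine ⟨⟨u, hu1, ?_⟩, rfl⟩
            rintro rfl
            exact hk hu2
          have e4 := Submodule.finrank_mono e3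
          have e5 : finrank ℝ (Submodule.span ℝ (Set.range fun u : {u // G.Adj w u ∧ u ≠ k} =>
                rc (cf M x u.1 w))) ≤ Fintype.card {u // G.Adj w u ∧ u ≠ k} :=
            finrank_range_le_card _
          have e6 := card_nbr_ne hw
          rw [Nat.card_eq_fintype_card] at e6
          omega
        have e7 := hR w k hw
        have e8 : ((M w k).map (Int.cast : ℤ → ℝ)).rank ≤ n k :=
          Matrix.rank_le_width _
        have e9 := dg_pos hw.symm
        omega
      · have hSw : S w = ⊥ := by
          rw [hS]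
          exact if_neg hw
        rw [hSw, finrank_bot]
        omega
    set S' : Option (Fin m) → Submodule ℝ (Fin (n k) → ℝ) := fun o =>
      match o with
      | none => ⊥
      | some w => S w with hS'
    obtain ⟨z, hzY, hzS⟩ := avoid (d := n k - dg G k) Y (by omega) S' (by
      intro o
      match o with
      | none =>
        have hS0 : S' none = ⊥ := rfl
        rw [hS0, finrank_bot]
        have := hn k
        omega
      | some w => exact hSr w)
    have hz0 : z ≠ 0 := by
      rintro rfl
      apply hzS none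
      rw [rc_zero]
      exact Submodule.zero_mem _
    have horth : ∀ u, G.Adj k u → u ∈ s → cf M x u k ⬝ᵥ z = 0 := by
      intro u hu hus
      exact mem_ker_forms g z hzY ⟨u, hu, hus⟩
    set x' : ∀ v, Fin (n v) → ℤ := Function.update x k z with hx'
    have hcf : ∀ u v, u ≠ k → cf M x' u v = cf M x u v := by
      intro u v hu
      unfold cf
      rw [hx', Function.update_of_ne hu]
    have hxk : x' k = z := by rw [hx', Function.update_self]
    have hxu : ∀ u, u ≠ k → x' u = x u := by
      intro u hu
      rw [hx', Function.update_of_ne hu]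
    refine ⟨x', ?_, ?_, ?_⟩
    · intro u hu v hv huv
      rw [Finset.mem_insert] at hu hv
      have hne := huv.ne
      by_cases huk : u = k
      · subst huk
        have hvk : v ≠ u := hne.symm
        have hvs : v ∈ s := hv.resolve_left hvk
        rw [hxu v hvk]
        have h4 := horth v huv hvs
        unfold cf at h4 ⊢
        rw [hxk]
        rw [hM u v] at h4
        rw [Matrix.vecMul_transpose] at h4
        rw [← Matrix.dotProduct_mulVec, dotProduct_comm]
        exact h4
      · have hus : u ∈ s := hu.resolve_left huk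
        rw [hcf u v huk]
        by_cases hvk : v = k
        · subst hvk
          rw [hxk]
          exact horth u huv.symm hus
        · rw [hxu v hvk]
          exact h1 u hus v (hv.resolve_left hvk) huv
    · intro v
      by_cases hvk : G.Adj v k
      · have hins : {u | G.Adj v u ∧ u ∈ insert k s} = insert k {u | G.Adj v u ∧ u ∈ s} := by
          ext u
          simp only [Set.mem_ofPred_eq, Set.mem_insert_iff, Finset.mem_insert]
          constructor
          · rintro ⟨ha, hb | hb⟩
            · exact Or.inl hb
            · exact Or.inr ⟨ha, hb⟩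
          · rintro (rfl | ⟨ha, hb⟩)
            · exact ⟨hvk, Or.inl rfl⟩
            · exact ⟨ha, Or.inr hb⟩
        rw [hins, linearIndepOn_insert (by simp [hk])]
        have heq : Set.EqOn (fun u => rc (cf M x u v)) (fun u => rc (cf M x' u v))
            {u | G.Adj v u ∧ u ∈ s} := by
          intro u hu
          have huk : u ≠ k := by
            rintro rfl
            exact hk hu.2
          show rc (cf M x u v) = rc (cf M x' u v)
          rw [hcf u v huk]
        constructor
        · exact (linearIndepOn_congr heq).1 (h2 v)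
        · rw [← heq.image_eq]
          show rc (cf M x' k v) ∉ _
          rw [rc_cf_symm hM, hxk]
          have h5 := hzS (some v)
          simp only [hS', hS, if_pos hvk] at h5
          exact h5
      · have hins : {u | G.Adj v u ∧ u ∈ insert k s} = {u | G.Adj v u ∧ u ∈ s} := by
          ext u
          simp only [Set.mem_ofPred_eq, Finset.mem_insert]
          constructor
          · rintro ⟨ha, hb | hb⟩
            · subst hb
              exact absurd ha hvk
            · exact ⟨ha, hb⟩
          · rintro ⟨ha, hb⟩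
            exact ⟨ha, Or.inr hb⟩
        rw [hins]
        have heq : Set.EqOn (fun u => rc (cf M x u v)) (fun u => rc (cf M x' u v))
            {u | G.Adj v u ∧ u ∈ s} := by
          intro u hu
          have huk : u ≠ k := by
            rintro rfl
            exact hk hu.2
          show rc (cf M x u v) = rc (cf M x' u v)
          rw [hcf u v huk]
        exact (linearIndepOn_congr heq).1 (h2 v)
    · intro v hv
      rw [Finset.mem_insert] at hv
      by_cases hvk : v = k
      · subst hvk
        rw [hxk]
        exact hz0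
      · rw [hxu v hvk]
        exact h3 v (hv.resolve_left hvk)

/-- The open set is not empty. -/
theorem exists_point {G : SimpleGraph (Fin m)}
    {M : ∀ u v : Fin m, Matrix (Fin (n u)) (Fin (n v)) ℤ}
    (hM : ∀ u v, M v u = (M u v)ᵀ) (hR : RankCond G M) (hn : ∀ v, dg G v + 1 ≤ n v) :
    ∃ x : ∀ v, Fin (n v) → ℤ, Inc G M x ∧ InU G M x ∧ ∀ v, x v ≠ 0 := by
  classical
  obtain ⟨x, h1, h2, h3⟩ := exists_partial hM hR hn univ
  refine ⟨x, fun u v h => h1 u (mem_univ _) v (mem_univ _) h, ?_, fun v => h3 v (mem_univ _)⟩
  intro v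
  rw [← linearIndependent_algebraMap_comp_iff (R := ℤ) (S := ℝ)]
  have h4 := h2 v
  have h5 : {u | G.Adj v u ∧ u ∈ (univ : Finset (Fin m))} = {u | G.Adj v u} := by
    ext u
    simp
  rw [h5] at h4
  exact h4

end Pool.Agent.R546.GW
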