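import Mathlib
import Pool.Agent.R546.GW.Bad

/-!
The descent at one vertex.
-/

namespace Pool.Agent.R546.GW

open Finset Module Matrix
open Pool.Agent.H548.WM (ht bx mem_bx)
open Pool.Agent.H548.BL (rc lat mem_lat lat_doubling doubling)

variable {m : ℕ} {n : Fin m → ℕ}

open Classical in
/-- The points in a box. -/
noncomputable def pts (G : SimpleGraph (Fin m)) (M : ∀ u v : Fin m, Matrix (Fin (n u)) (Fin (n v)) ℤ)
    (B : Fin m → ℕ) : Finset (∀ v, Fin (n v) → ℤ) :=
  (Fintype.piFinset fun v => bx (n v) (B v)).filter fun x => Inc G M x ∧ InU G M x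

open Classical in
theorem mem_pts {G : SimpleGraph (Fin m)} {M : ∀ u v : Fin m, Matrix (Fin (n u)) (Fin (n v)) ℤ}
    {B : Fin m → ℕ} {x : ∀ v, Fin (n v) → ℤ} :
    x ∈ pts G M B ↔ (∀ v, ht (x v) ≤ B v) ∧ Inc G M x ∧ InU G M x := by
  unfold pts
  rw [mem_filter, Fintype.mem_piFinset]
  simp only [mem_bx]

/-- The normal vectors at a vertex. -/
def nrm (G : SimpleGraph (Fin m)) (M : ∀ u v : Fin m, Matrix (Fin (n u)) (Fin (n v)) ℤ)
    (y : ∀ v, Fin (n v) → ℤ) (v : Fin m) : {u // G.Adj v u} → Fin (n v) → ℤ :=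
  fun u => cf M y u.1 v

open Classical in
/-- The points without the coordinates at a vertex. -/
noncomputable def oth (G : SimpleGraph (Fin m)) (M : ∀ u v : Fin m, Matrix (Fin (n u)) (Fin (n v)) ℤ)
    (B : Fin m → ℕ) (v : Fin m) : Finset (∀ v, Fin (n v) → ℤ) :=
  (pts (del G v) M (Function.update B v 0)).filter fun y => LinearIndependent ℤ (nrm G M y v)

theorem ht_zero {N : ℕ} : ht (0 : Fin N → ℤ) = 0 := by
  have : ht (0 : Fin N → ℤ) ≤ 0 := Pool.Agent.H548.WM.ht_le (by intro i; simp)
  omega

theorem eq_zero_of_ht {N : ℕ} {a : Fin N → ℤ} (h : ht a ≤ 0) : a = 0 := by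
  by_contra hc
  have := Pool.Agent.H548.WM.ht_pos hc
  omega

theorem cf_update_ne (M : ∀ u v : Fin m, Matrix (Fin (n u)) (Fin (n v)) ℤ)
    (y : ∀ v, Fin (n v) → ℤ) {u v : Fin m} (h : u ≠ v) (z : Fin (n v) → ℤ) (w : Fin m) :
    cf M (Function.update y v z) u w = cf M y u w := by
  unfold cf
  rw [Function.update_of_ne h]

theorem cf_symm {M : ∀ u v : Fin m, Matrix (Fin (n u)) (Fin (n v)) ℤ}
    (hM : ∀ u v, M v u = (M u v)ᵀ) (x : ∀ v, Fin (n v) → ℤ) (u v : Fin m) :
    cf M x u v ⬝ᵥ x v = cf M x v u ⬝ᵥ x u := by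
  unfold cf
  rw [hM u v, Matrix.vecMul_transpose, ← Matrix.dotProduct_mulVec, dotProduct_comm]

/-- The equations at `v`. -/
theorem inc_update {G : SimpleGraph (Fin m)} {M : ∀ u v : Fin m, Matrix (Fin (n u)) (Fin (n v)) ℤ}
    (hM : ∀ u v, M v u = (M u v)ᵀ) {y : ∀ v, Fin (n v) → ℤ} {v : Fin m} {z : Fin (n v) → ℤ}
    (hy : Inc (del G v) M y) (hz : z ∈ lat (nrm G M y v)) : Inc G M (Function.update y v z) := by
  rw [mem_lat] at hz
  intro a b hab
  by_cases hb : b = v
  · subst hb
    have ha : a ≠ b := hab.ne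
    rw [cf_update_ne M y ha, Function.update_self]
    exact hz ⟨a, hab.symm⟩
  · by_cases ha : a = v
    · subst ha
      rw [cf_symm hM, cf_update_ne M y hb, Function.update_self]
      exact hz ⟨b, hab⟩
    · rw [cf_update_ne M y ha, Function.update_of_ne hb]
      exact hy a b ⟨hab, ha, hb⟩

theorem inU_update {G : SimpleGraph (Fin m)} {M : ∀ u v : Fin m, Matrix (Fin (n u)) (Fin (n v)) ℤ}
    {y : ∀ v, Fin (n v) → ℤ} {v : Fin m} {z : Fin (n v) → ℤ}
    (hy : InU (del G v) M y) (hv : LinearIndependent ℤ (nrm G M y v))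
    (hb : ∀ u, G.Adj u v → LinearIndependent ℤ
      (fun w : {w // G.Adj u w} => cf M (Function.update y v z) w.1 u)) :
    InU G M (Function.update y v z) := by
  intro c
  by_cases hc : c = v
  · subst hc
    have h1 : (fun u : {u // G.Adj c u} => cf M (Function.update y c z) u.1 c) = nrm G M y c := by
      funext u
      exact cf_update_ne M y u.2.symm.ne z c
    rw [h1]
    exact hv
  · by_cases hcv : G.Adj c v
    · exact hb c hcv
    · let e : {u // G.Adj c u} → {u // (del G v).Adj c u} := fun u =>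
        ⟨u.1, u.2, hc, fun h => hcv (by rw [← h]; exact u.2)⟩
      have he : Function.Injective e := by
        intro a b hab
        have hab2 := congrArg Subtype.val hab
        exact Subtype.ext hab2
      have h2 := (hy c).comp e he
      have h3 : (fun u : {u // G.Adj c u} => cf M (Function.update y v z) u.1 c) =
          (fun u : {u // (del G v).Adj c u} => cf M y u.1 c) ∘ e := by
        funext u
        exact cf_update_ne M y (fun h => hcv (by rw [← h]; exact u.2)) z c
      rw [h3]
      exact h2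

open Classical in
theorem mem_oth_of {G : SimpleGraph (Fin m)}
    {M : ∀ u v : Fin m, Matrix (Fin (n u)) (Fin (n v)) ℤ}
    {B : Fin m → ℕ} {v : Fin m} {x : ∀ v, Fin (n v) → ℤ} (hx : x ∈ pts G M B) :
    Function.update x v 0 ∈ oth G M B v := by
  rw [mem_pts] at hx
  obtain ⟨h1, h2, h3⟩ := hx
  unfold oth
  rw [mem_filter, mem_pts]
  refine ⟨⟨?_, ?_, ?_⟩, ?_⟩
  · intro w
    by_cases hw : w = v
    · subst hw
      rw [Function.update_self, Function.update_self, ht_zero]
    · rw [Function.update_of_ne hw, Function.update_of_ne hw]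
      exact h1 w
  · intro a b hab
    rw [cf_update_ne M x hab.2.1, Function.update_of_ne hab.2.2]
    exact h2 a b hab.1
  · intro c
    let e : {u // (del G v).Adj c u} → {u // G.Adj c u} := fun u => ⟨u.1, u.2.1⟩
    have he : Function.Injective e := by
      intro a b hab
      have hab2 := congrArg Subtype.val hab
      exact Subtype.ext hab2
    have h4 := (h3 c).comp e he
    have h5 : (fun u : {u // (del G v).Adj c u} => cf M (Function.update x v 0) u.1 c) =
        (fun u : {u // G.Adj c u} => cf M x u.1 c) ∘ e := by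
      funext u
      exact cf_update_ne M x u.2.2.2 0 c
    rw [h5]
    exact h4
  · have h1 : nrm G M (Function.update x v 0) v = fun u : {u // G.Adj v u} => cf M x u.1 v := by
      funext u
      exact cf_update_ne M x u.2.symm.ne 0 v
    rw [h1]
    exact h3 v

open Classical in
/-- Counting over the other coordinates. -/
theorem pts_le {G : SimpleGraph (Fin m)} {M : ∀ u v : Fin m, Matrix (Fin (n u)) (Fin (n v)) ℤ}
    (B : Fin m → ℕ) (v : Fin m) :
    (pts G M B).card ≤ ∑ y ∈ oth G M B v,
      ((bx (n v) (B v)).filter (· ∈ lat (nrm G M y v))).card := by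
  rw [← Finset.card_sigma]
  apply Finset.card_le_card_of_injOn (fun x => ⟨Function.update x v 0, x v⟩)
  · intro x hx
    have hx' := mem_pts.1 (Finset.mem_coe.1 hx)
    rw [Finset.mem_coe, Finset.mem_sigma]
    refine ⟨mem_oth_of (Finset.mem_coe.1 hx), ?_⟩
    rw [mem_filter, mem_bx, mem_lat]
    refine ⟨hx'.1 v, ?_⟩
    intro u
    show cf M (Function.update x v 0) u.1 v ⬝ᵥ x v = 0
    rw [cf_update_ne M x u.2.symm.ne]
    exact hx'.2.1 u.1 v u.2.symm
  · intro x _ x' _ h
    simp only [Sigma.mk.injEq, heq_eq_eq] at h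
    obtain ⟨h1, h2⟩ := h
    funext w
    by_cases hw : w = v
    · subst hw
      exact h2
    · have := congrFun h1 w
      rwa [Function.update_of_ne hw, Function.update_of_ne hw] at this

open Classical in
/-- Good and bad vectors of smaller size. -/
theorem sum_le {G : SimpleGraph (Fin m)} {M : ∀ u v : Fin m, Matrix (Fin (n u)) (Fin (n v)) ℤ}
    (hM : ∀ u v, M v u = (M u v)ᵀ) (hR : RankCond G M)
    (B : Fin m → ℕ) (v : Fin m) {ρ : ℕ} (hρ : 1 ≤ ρ) :
    ((∑ y ∈ oth G M B v, ((bx (n v) ρ).filter (· ∈ lat (nrm G M y v))).card : ℕ) : ℝ) ≤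
      ((pts G M (Function.update B v ρ)).card : ℝ) +
      ((pts (del G v) M (Function.update B v 0)).card : ℝ) *
        (m * ((3 * (ρ : ℝ)) ^ (n v - 2 * dg G v) * 3 ^ (n v))) := by
  set good : (∀ v, Fin (n v) → ℤ) → Finset (Fin (n v) → ℤ) := fun y =>
    (bx (n v) ρ).filter fun z => Function.update y v z ∈ pts G M (Function.update B v ρ)
    with hgood
  set bad : (∀ v, Fin (n v) → ℤ) → Fin m → Finset (Fin (n v) → ℤ) := fun y u =>
    (bx (n v) ρ).filter fun z => ¬ LinearIndependent ℤ
      (fun w : {w // G.Adj u w} => cf M (Function.update y v z) w.1 u) with hbad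
  have hmem : ∀ y ∈ oth G M B v, (∀ w, ht (y w) ≤ Function.update B v 0 w) ∧
      Inc (del G v) M y ∧ InU (del G v) M y ∧ LinearIndependent ℤ (nrm G M y v) := by
    intro y hy
    unfold oth at hy
    rw [mem_filter, mem_pts] at hy
    exact ⟨hy.1.1, hy.1.2.1, hy.1.2.2, hy.2⟩
  -- covering
  have h1 : ∀ y ∈ oth G M B v, ((bx (n v) ρ).filter (· ∈ lat (nrm G M y v))).card ≤
      (good y).card + ∑ u ∈ univ.filter (fun u => G.Adj u v), (bad y u).card := by
    intro y hy
    obtain ⟨a1, a2, a3, a4⟩ := hmem y hy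
    have h2 : (bx (n v) ρ).filter (· ∈ lat (nrm G M y v)) ⊆
        good y ∪ (univ.filter (fun u => G.Adj u v)).biUnion (bad y) := by
      intro z hz
      rw [mem_filter] at hz
      rw [mem_union, mem_biUnion]
      by_cases hall : ∀ u, G.Adj u v → LinearIndependent ℤ
          (fun w : {w // G.Adj u w} => cf M (Function.update y v z) w.1 u)
      · left
        rw [hgood, mem_filter, mem_pts]
        refine ⟨hz.1, ?_, inc_update hM a2 hz.2, inU_update a3 a4 hall⟩
        intro w
        by_cases hw : w = v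
        · subst hw
          rw [Function.update_self, Function.update_self]
          exact mem_bx.1 hz.1
        · rw [Function.update_of_ne hw, Function.update_of_ne hw]
          have := a1 w
          rwa [Function.update_of_ne hw] at this
      · right
        push Not at hall
        obtain ⟨u, hu, hu2⟩ := hall
        refine ⟨u, by simpa using hu, ?_⟩
        rw [hbad, mem_filter]
        exact ⟨hz.1, hu2⟩
    exact (Finset.card_le_card h2).trans ((Finset.card_union_le _ _).trans
      (Nat.add_le_add_left Finset.card_biUnion_le _))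
  -- the good ones
  have h3 : ∑ y ∈ oth G M B v, (good y).card ≤ (pts G M (Function.update B v ρ)).card := by
    rw [← Finset.card_sigma]
    apply Finset.card_le_card_of_injOn (fun p => Function.update p.1 v p.2)
    · rintro ⟨y, z⟩ hp
      rw [Finset.mem_coe, Finset.mem_sigma] at hp
      have := hp.2
      rw [hgood, mem_filter] at this
      exact this.2
    · rintro ⟨y, z⟩ hp ⟨y', z'⟩ hp' h
      rw [Finset.mem_coe, Finset.mem_sigma] at hp hp'
      simp only at h hp hp'
      have e1 : z = z' := by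
        have := congrFun h v
        rwa [Function.update_self, Function.update_self] at this
      have e2 : y = y' := by
        funext w
        by_cases hw : w = v
        · subst hw
          have b1 := (hmem y hp.1).1 w
          have b2 := (hmem y' hp'.1).1 w
          rw [Function.update_self] at b1 b2
          rw [eq_zero_of_ht b1, eq_zero_of_ht b2]
        · have := congrFun h w
          rwa [Function.update_of_ne hw, Function.update_of_ne hw] at this
      subst e1 e2
      rfl
  -- the bad ones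
  have h4 : ∀ y ∈ oth G M B v, ((∑ u ∈ univ.filter (fun u => G.Adj u v), (bad y u).card : ℕ) : ℝ) ≤
      m * ((3 * (ρ : ℝ)) ^ (n v - 2 * dg G v) * 3 ^ (n v)) := by
    intro y hy
    obtain ⟨a1, a2, a3, a4⟩ := hmem y hy
    rw [Nat.cast_sum]
    have h5 : ∀ u ∈ univ.filter (fun u => G.Adj u v), ((bad y u).card : ℝ) ≤
        (3 * (ρ : ℝ)) ^ (n v - 2 * dg G v) * 3 ^ (n v) := by
      intro u hu
      rw [mem_filter] at hu
      have := bad_card hM hR hu.2 y (a3 u) hρ
      exact this
    refine (Finset.sum_le_sum h5).trans ?_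
    rw [Finset.sum_const, nsmul_eq_mul]
    have h6 : ((univ.filter (fun u => G.Adj u v)).card : ℝ) ≤ m := by
      have := Finset.card_le_univ (univ.filter fun u => G.Adj u v)
      rw [Fintype.card_fin] at this
      exact_mod_cast this
    gcongr
  have h7 : (oth G M B v).card ≤ (pts (del G v) M (Function.update B v 0)).card :=
    Finset.card_filter_le _ _
  calc ((∑ y ∈ oth G M B v, ((bx (n v) ρ).filter (· ∈ lat (nrm G M y v))).card : ℕ) : ℝ)
      ≤ ((∑ y ∈ oth G M B v, ((good y).card +
          ∑ u ∈ univ.filter (fun u => G.Adj u v), (bad y u).card) : ℕ) : ℝ) := by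
        exact_mod_cast Finset.sum_le_sum h1
    _ = ((∑ y ∈ oth G M B v, (good y).card : ℕ) : ℝ) + ∑ y ∈ oth G M B v,
          ((∑ u ∈ univ.filter (fun u => G.Adj u v), (bad y u).card : ℕ) : ℝ) := by
        rw [Finset.sum_add_distrib, Nat.cast_add, Nat.cast_sum (f := fun y =>
          ∑ u ∈ univ.filter (fun u => G.Adj u v), (bad y u).card)]
    _ ≤ ((pts G M (Function.update B v ρ)).card : ℝ) + ∑ y ∈ oth G M B v,
          (m * ((3 * (ρ : ℝ)) ^ (n v - 2 * dg G v) * 3 ^ (n v))) := by
        have h8 : ((∑ y ∈ oth G M B v, (good y).card : ℕ) : ℝ) ≤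
            ((pts G M (Function.update B v ρ)).card : ℝ) := by exact_mod_cast h3
        have h9 := Finset.sum_le_sum h4
        linarith
    _ = ((pts G M (Function.update B v ρ)).card : ℝ) + ((oth G M B v).card : ℝ) *
          (m * ((3 * (ρ : ℝ)) ^ (n v - 2 * dg G v) * 3 ^ (n v))) := by
        rw [Finset.sum_const, nsmul_eq_mul]
    _ ≤ _ := by
        have h8 : ((oth G M B v).card : ℝ) ≤
            ((pts (del G v) M (Function.update B v 0)).card : ℝ) := by exact_mod_cast h7
        gcongr

open Classical in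
/-- The descent. -/
theorem step {G : SimpleGraph (Fin m)} {M : ∀ u v : Fin m, Matrix (Fin (n u)) (Fin (n v)) ℤ}
    (hM : ∀ u v, M v u = (M u v)ᵀ) (hR : RankCond G M)
    (B : Fin m → ℕ) (v : Fin m) {ρ : ℕ} (hρ : 1 ≤ ρ) (hB : ρ ≤ B v) :
    ((pts G M B).card : ℝ) ≤ (3 * (B v : ℝ) / ρ) ^ (n v - dg G v) *
      (((pts G M (Function.update B v ρ)).card : ℝ) +
      ((pts (del G v) M (Function.update B v 0)).card : ℝ) *
        (m * ((3 * (ρ : ℝ)) ^ (n v - 2 * dg G v) * 3 ^ (n v)))) := by
  have h1 := pts_le (M := M) (G := G) B v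
  have h2 := sum_le hM hR B v hρ
  have h3 : ∀ y ∈ oth G M B v, (((bx (n v) (B v)).filter (· ∈ lat (nrm G M y v))).card : ℝ) ≤
      (3 * (B v : ℝ) / ρ) ^ (n v - dg G v) *
        (((bx (n v) ρ).filter (· ∈ lat (nrm G M y v))).card : ℝ) := by
    intro y hy
    have hli : LinearIndependent ℤ (nrm G M y v) := by
      unfold oth at hy
      exact (mem_filter.1 hy).2
    have := lat_doubling hli (B v) ρ hρ hB
    rwa [dg_eq'] at this
  calc ((pts G M B).card : ℝ) ≤ ((∑ y ∈ oth G M B v,
        ((bx (n v) (B v)).filter (· ∈ lat (nrm G M y v))).card : ℕ) : ℝ) := by exact_mod_cast h1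
    _ = ∑ y ∈ oth G M B v, (((bx (n v) (B v)).filter (· ∈ lat (nrm G M y v))).card : ℝ) := by
        rw [Nat.cast_sum]
    _ ≤ ∑ y ∈ oth G M B v, (3 * (B v : ℝ) / ρ) ^ (n v - dg G v) *
        (((bx (n v) ρ).filter (· ∈ lat (nrm G M y v))).card : ℝ) := Finset.sum_le_sum h3
    _ = (3 * (B v : ℝ) / ρ) ^ (n v - dg G v) *
        ((∑ y ∈ oth G M B v, ((bx (n v) ρ).filter (· ∈ lat (nrm G M y v))).card : ℕ) : ℝ) := by
        rw [← Finset.mul_sum, Nat.cast_sum]
    _ ≤ _ := by gcongr

end Pool.Agent.R546.GW
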