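import Mathlib
import Pool.Agent.R546.GW.Step

/-!
The number of the points in a box.
-/

namespace Pool.Agent.R546.GW

open Finset Module Matrix
open Pool.Agent.H548.WM (ht bx mem_bx)
open Pool.Agent.H548.BL (exists_scale)

variable {m : ℕ} {n : Fin m → ℕ}

/-- The size of a side of a box. -/
noncomputable def bb (k : ℕ) : ℝ := ((max 1 k : ℕ) : ℝ)

theorem one_le_bb (k : ℕ) : 1 ≤ bb k := by
  unfold bb
  exact_mod_cast le_max_left 1 k

theorem bb_zero : bb 0 = 1 := by
  unfold bb
  norm_num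

theorem bb_of_le {k : ℕ} (h : 1 ≤ k) : bb k = k := by
  unfold bb
  rw [max_eq_right h]

theorem bb_mono {k l : ℕ} (h : k ≤ l) : bb k ≤ bb l := by
  unfold bb
  exact_mod_cast max_le_max le_rfl h

/-- The main term. -/
noncomputable def W (G : SimpleGraph (Fin m)) (n : Fin m → ℕ) (ε : ℝ) (B : Fin m → ℕ) : ℝ :=
  ∏ w, bb (B w) ^ (((n w - dg G w : ℕ) : ℝ) + ε)

theorem W_nonneg (G : SimpleGraph (Fin m)) (n : Fin m → ℕ) (ε : ℝ) (B : Fin m → ℕ) :
    0 ≤ W G n ε B := by
  unfold W
  apply Finset.prod_nonneg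
  intro w _
  have := one_le_bb (B w)
  positivity

/-- The part of the other vertices. -/
noncomputable def Rst (G : SimpleGraph (Fin m)) (n : Fin m → ℕ) (ε : ℝ) (B : Fin m → ℕ)
    (v : Fin m) : ℝ := ∏ w ∈ univ.erase v, bb (B w) ^ (((n w - dg G w : ℕ) : ℝ) + ε)

theorem Rst_nonneg (G : SimpleGraph (Fin m)) (n : Fin m → ℕ) (ε : ℝ) (B : Fin m → ℕ)
    (v : Fin m) : 0 ≤ Rst G n ε B v := by
  unfold Rst
  apply Finset.prod_nonneg
  intro w _
  have := one_le_bb (B w)
  positivity

theorem W_eq (G : SimpleGraph (Fin m)) (n : Fin m → ℕ) (ε : ℝ) (B : Fin m → ℕ) (v : Fin m) :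
    W G n ε B = bb (B v) ^ (((n v - dg G v : ℕ) : ℝ) + ε) * Rst G n ε B v := by
  unfold W Rst
  exact (Finset.mul_prod_erase univ (fun w => bb (B w) ^ (((n w - dg G w : ℕ) : ℝ) + ε))
    (mem_univ v)).symm

theorem W_update (G : SimpleGraph (Fin m)) (n : Fin m → ℕ) (ε : ℝ) (B : Fin m → ℕ) (v : Fin m)
    (ρ : ℕ) :
    W G n ε (Function.update B v ρ) =
      bb ρ ^ (((n v - dg G v : ℕ) : ℝ) + ε) * Rst G n ε B v := by
  rw [W_eq G n ε _ v, Function.update_self]
  congr 1
  unfold Rst
  apply Finset.prod_congr rfl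
  intro w hw
  rw [Function.update_of_ne (Finset.ne_of_mem_erase hw)]

open Classical in
theorem W_del_le (G : SimpleGraph (Fin m)) (n : Fin m → ℕ) (ε : ℝ) (B : Fin m → ℕ)
    (v : Fin m) {A : ℝ} (hB : ∀ w, G.Adj v w → bb (B w) ≤ A) :
    W (del G v) n ε (Function.update B v 0) ≤ A ^ (dg G v) * Rst G n ε B v := by
  have h1 : ∀ w ∈ (univ : Finset (Fin m)),
      bb (Function.update B v 0 w) ^ (((n w - dg (del G v) w : ℕ) : ℝ) + ε) ≤
      (if G.Adj v w then A else 1) *
        (if w = v then 1 else bb (B w) ^ (((n w - dg G w : ℕ) : ℝ) + ε)) := by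
    intro w _
    by_cases hw : w = v
    · subst hw
      rw [Function.update_self, bb_zero, Real.one_rpow, if_pos rfl, if_neg (by simp)]
      norm_num
    · rw [Function.update_of_ne hw, if_neg hw]
      have hb := one_le_bb (B w)
      have hdg := le_dg_del G hw
      split_ifs with hadj
      · rw [if_pos hadj] at hdg
        have h2 : n w - dg (del G v) w ≤ (n w - dg G w) + 1 := by omega
        have h3 : ((n w - dg (del G v) w : ℕ) : ℝ) ≤ ((n w - dg G w : ℕ) : ℝ) + 1 := by
          exact_mod_cast h2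
        calc bb (B w) ^ (((n w - dg (del G v) w : ℕ) : ℝ) + ε)
            ≤ bb (B w) ^ (1 + (((n w - dg G w : ℕ) : ℝ) + ε)) :=
              Real.rpow_le_rpow_of_exponent_le hb (by linarith)
          _ = bb (B w) * bb (B w) ^ (((n w - dg G w : ℕ) : ℝ) + ε) := by
              rw [Real.rpow_add (by linarith), Real.rpow_one]
          _ ≤ A * bb (B w) ^ (((n w - dg G w : ℕ) : ℝ) + ε) := by
              have := hB w hadj
              gcongr
      · rw [if_neg hadj] at hdg
        rw [one_mul]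
        apply Real.rpow_le_rpow_of_exponent_le hb
        have h2 : n w - dg (del G v) w ≤ n w - dg G w := by omega
        have h3 : ((n w - dg (del G v) w : ℕ) : ℝ) ≤ ((n w - dg G w : ℕ) : ℝ) := by
          exact_mod_cast h2
        linarith
  unfold W
  refine (Finset.prod_le_prod (fun w _ => ?_) h1).trans (le_of_eq ?_)
  · have := one_le_bb (Function.update B v 0 w)
    positivity
  · rw [Finset.prod_mul_distrib]
    congr 1
    · rw [← Finset.prod_filter, Finset.prod_const, dg_eq]
    · unfold Rst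
      rw [← Finset.mul_prod_erase _ _ (mem_univ v), if_pos rfl, one_mul]
      apply Finset.prod_congr rfl
      intro w hw
      rw [if_neg (Finset.ne_of_mem_erase hw)]

/-- The inequality of the induction. -/
theorem real_step {A ρ q K K' R ε mm : ℝ} {r b d nv a : ℕ} (hA : 1 ≤ A) (hρ : 1 ≤ ρ)
    (hρA : ρ ≤ A) (hq : 1 ≤ q) (h1 : A ≤ q * ρ) (h2 : ρ * q ≤ 2 * A) (h3 : q ^ a ≤ A ^ ε)
    (h4 : 3 ^ a * 2 * (2 / q) ^ ε ≤ 1) (hε : 0 < ε) (hra : r ≤ a) (hbd : b + d = r)
    (hK : 0 ≤ K) (hK' : 0 ≤ K') (hR : 0 ≤ R) (hmm : 0 ≤ mm)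
    (hKK : 2 * (K' * mm * 3 ^ (r + b + nv)) ≤ K) :
    (3 * A / ρ) ^ r * (K * (ρ ^ ((r : ℝ) + ε) * R) +
      K' * (A ^ d * R) * (mm * ((3 * ρ) ^ b * 3 ^ nv))) ≤ K * (A ^ ((r : ℝ) + ε) * R) := by
  have A0 : 0 < A := by linarith
  have ρ0 : 0 < ρ := by linarith
  have q0 : 0 < q := by linarith
  have e1 : A ^ ((r : ℝ) + ε) = A ^ r * A ^ ε := by
    rw [Real.rpow_add A0, Real.rpow_natCast]
  have e2 : ρ ^ ((r : ℝ) + ε) = ρ ^ r * ρ ^ ε := by
    rw [Real.rpow_add ρ0, Real.rpow_natCast]
  have hAε : 0 < A ^ ε := Real.rpow_pos_of_pos A0 _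
  -- first term
  have f1 : (3 * A / ρ) ^ r * (K * (ρ ^ ((r : ℝ) + ε) * R)) ≤ K / 2 * (A ^ ((r : ℝ) + ε) * R) := by
    have g1 : (3 * A / ρ) ^ r * ρ ^ r = 3 ^ r * A ^ r := by
      rw [← mul_pow, div_mul_cancel₀ _ ρ0.ne', mul_pow]
    have g2 : ρ ^ ε ≤ (2 / q) ^ ε * A ^ ε := by
      rw [← Real.mul_rpow (by positivity) A0.le]
      apply Real.rpow_le_rpow ρ0.le _ hε.le
      rw [div_mul_eq_mul_div, le_div_iff₀ q0]
      exact h2
    have g3 : (3 : ℝ) ^ r * (2 / q) ^ ε ≤ 1 / 2 := by
      have g4 : (3 : ℝ) ^ r ≤ 3 ^ a := pow_le_pow_right₀ (by norm_num) hra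
      have g5 : (3 : ℝ) ^ r * (2 / q) ^ ε ≤ 3 ^ a * (2 / q) ^ ε := by gcongr
      nlinarith
    calc (3 * A / ρ) ^ r * (K * (ρ ^ ((r : ℝ) + ε) * R))
        = K * ((3 * A / ρ) ^ r * ρ ^ r) * ρ ^ ε * R := by rw [e2]; ring
      _ = K * (3 ^ r * A ^ r) * ρ ^ ε * R := by rw [g1]
      _ ≤ K * (3 ^ r * A ^ r) * ((2 / q) ^ ε * A ^ ε) * R := by gcongr
      _ = K * (3 ^ r * (2 / q) ^ ε) * (A ^ r * A ^ ε * R) := by ring
      _ ≤ K * (1 / 2) * (A ^ r * A ^ ε * R) := by gcongr
      _ = _ := by rw [e1]; ring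
  -- second term
  have f2 : (3 * A / ρ) ^ r * (K' * (A ^ d * R) * (mm * ((3 * ρ) ^ b * 3 ^ nv))) ≤
      K / 2 * (A ^ ((r : ℝ) + ε) * R) := by
    have g1 : (3 * A / ρ) ^ r ≤ 3 ^ r * A ^ ε := by
      have k1 : 3 * A / ρ ≤ 3 * q := by
        rw [div_le_iff₀ ρ0]
        linarith
      calc (3 * A / ρ) ^ r ≤ (3 * q) ^ r := by gcongr
        _ = 3 ^ r * q ^ r := by rw [mul_pow]
        _ ≤ 3 ^ r * q ^ a := by
            gcongr
        _ ≤ 3 ^ r * A ^ ε := by gcongr
    have g2 : (3 * ρ) ^ b ≤ 3 ^ b * A ^ b := by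
      rw [← mul_pow]
      gcongr
    calc (3 * A / ρ) ^ r * (K' * (A ^ d * R) * (mm * ((3 * ρ) ^ b * 3 ^ nv)))
        ≤ (3 ^ r * A ^ ε) * (K' * (A ^ d * R) * (mm * ((3 ^ b * A ^ b) * 3 ^ nv))) := by gcongr
      _ = (K' * mm * 3 ^ (r + b + nv)) * (A ^ (b + d) * A ^ ε * R) := by ring
      _ ≤ (K / 2) * (A ^ (b + d) * A ^ ε * R) := by
          gcongr
          linarith
      _ = _ := by rw [e1, hbd]
  calc (3 * A / ρ) ^ r * (K * (ρ ^ ((r : ℝ) + ε) * R) +
      K' * (A ^ d * R) * (mm * ((3 * ρ) ^ b * 3 ^ nv)))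
      = (3 * A / ρ) ^ r * (K * (ρ ^ ((r : ℝ) + ε) * R)) +
        (3 * A / ρ) ^ r * (K' * (A ^ d * R) * (mm * ((3 * ρ) ^ b * 3 ^ nv))) := by ring
    _ ≤ K / 2 * (A ^ ((r : ℝ) + ε) * R) + K / 2 * (A ^ ((r : ℝ) + ε) * R) := add_le_add f1 f2
    _ = _ := by ring

theorem card_bx_bb (N X : ℕ) : ((bx N X).card : ℝ) ≤ (3 * bb X) ^ N := by
  have h1 : bx N X ⊆ bx N (max 1 X) := by
    intro z hz
    rw [mem_bx] at hz ⊢
    exact hz.trans (le_max_right _ _)
  have h2 := Pool.Agent.H548.WM.card_bx_le N (X := max 1 X) (le_max_left _ _)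
  have h3 : ((bx N X).card : ℝ) ≤ ((bx N (max 1 X)).card : ℝ) := by
    exact_mod_cast Finset.card_le_card h1
  exact h3.trans h2

/-- Small boxes. -/
theorem small (G : SimpleGraph (Fin m)) (M : ∀ u v : Fin m, Matrix (Fin (n u)) (Fin (n v)) ℤ)
    {ε : ℝ} (hε : 0 < ε) (B0 : ℕ) (B : Fin m → ℕ) (hB : ∀ v, 1 ≤ dg G v → B v ≤ B0) :
    ((pts G M B).card : ℝ) ≤ (∏ w, (3 * bb B0) ^ (n w)) * W G n ε B := by
  classical
  have h1 : (pts G M B).card ≤ ∏ w, (bx (n w) (B w)).card := by
    unfold pts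
    refine (Finset.card_filter_le _ _).trans (le_of_eq ?_)
    rw [Fintype.card_piFinset]
  have h2 : ((pts G M B).card : ℝ) ≤ ∏ w, ((bx (n w) (B w)).card : ℝ) := by
    exact_mod_cast h1
  refine h2.trans ?_
  unfold W
  rw [← Finset.prod_mul_distrib]
  apply Finset.prod_le_prod
  · intro w _
    positivity
  intro w _
  have hb := one_le_bb (B w)
  have hb0 := one_le_bb B0
  have h3 := card_bx_bb (n w) (B w)
  by_cases hw : 1 ≤ dg G w
  · have h4 : bb (B w) ≤ bb B0 := bb_mono (hB w hw)
    have h5 : (1 : ℝ) ≤ bb (B w) ^ (((n w - dg G w : ℕ) : ℝ) + ε) :=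
      Real.one_le_rpow hb (by positivity)
    calc ((bx (n w) (B w)).card : ℝ) ≤ (3 * bb (B w)) ^ (n w) := h3
      _ ≤ (3 * bb B0) ^ (n w) * 1 := by
          rw [mul_one]
          gcongr
      _ ≤ _ := by gcongr
  · have h4 : n w - dg G w = n w := by omega
    rw [h4]
    calc ((bx (n w) (B w)).card : ℝ) ≤ (3 * bb (B w)) ^ (n w) := h3
      _ = 3 ^ (n w) * bb (B w) ^ (n w) := by rw [mul_pow]
      _ ≤ (3 * bb B0) ^ (n w) * bb (B w) ^ ((n w : ℝ) + ε) := by
          have h5 : (3 : ℝ) ^ (n w) ≤ (3 * bb B0) ^ (n w) := by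
            gcongr
            linarith
          have h6 : bb (B w) ^ (n w) ≤ bb (B w) ^ ((n w : ℝ) + ε) := by
            rw [← Real.rpow_natCast]
            exact Real.rpow_le_rpow_of_exponent_le hb (by linarith)
          gcongr

theorem rankCond_del {G : SimpleGraph (Fin m)}
    {M : ∀ u v : Fin m, Matrix (Fin (n u)) (Fin (n v)) ℤ} (hR : RankCond G M) (v : Fin m) :
    RankCond (del G v) M := by
  intro a b hab
  have h1 := hR a b hab.1
  have h2 := dg_del_le G v a
  have h3 := dg_del_le G v b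
  omega

/-- The bound for boxes. -/
theorem box {M : ∀ u v : Fin m, Matrix (Fin (n u)) (Fin (n v)) ℤ}
    (hM : ∀ u v, M v u = (M u v)ᵀ) : ∀ (k : ℕ) (G : SimpleGraph (Fin m)), ∑ v, dg G v ≤ k →
    RankCond G M → ∀ ε : ℝ, 0 < ε → ∃ K : ℝ, 0 ≤ K ∧ ∀ B : Fin m → ℕ,
      ((pts G M B).card : ℝ) ≤ K * W G n ε B := by
  intro k
  induction k with
  | zero =>
    intro G hG _ ε hε
    refine ⟨∏ w, (3 * bb 0) ^ (n w), ?_, fun B => small G M hε 0 B ?_⟩
    · apply Finset.prod_nonneg
      intro w _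
      have := one_le_bb 0
      positivity
    · intro v hv
      exfalso
      have h1 : dg G v ≤ ∑ v, dg G v := Finset.single_le_sum (fun _ _ => Nat.zero_le _) (mem_univ v)
      omega
  | succ k ih =>
    intro G hG hR ε hε
    -- the constants for the smaller graphs
    have hdel : ∀ v : Fin m, ∃ K : ℝ, 0 ≤ K ∧ (1 ≤ dg G v → ∀ B : Fin m → ℕ,
        ((pts (del G v) M B).card : ℝ) ≤ K * W (del G v) n ε B) := by
      intro v
      by_cases hv : 1 ≤ dg G v
      · have h1 : ∑ w, dg (del G v) w < ∑ w, dg G w := by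
          apply Finset.sum_lt_sum (fun w _ => dg_del_le G v w)
          exact ⟨v, mem_univ v, by rw [dg_del_self]; omega⟩
        obtain ⟨K, hK, hK2⟩ := ih (del G v) (by omega) (rankCond_del hR v) ε hε
        exact ⟨K, hK, fun _ => hK2⟩
      · exact ⟨0, le_rfl, fun h => absurd h hv⟩
    choose Kd hKd0 hKd using hdel
    set K' : ℝ := ∑ v, Kd v with hK'
    have hK'0 : 0 ≤ K' := Finset.sum_nonneg fun v _ => hKd0 v
    have hKdK' : ∀ v, Kd v ≤ K' := fun v =>
      Finset.single_le_sum (fun w _ => hKd0 w) (mem_univ v)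
    set a : ℕ := 1 + ∑ w, n w with ha
    have hna : ∀ w, n w ≤ a := by
      intro w
      have h1 : n w ≤ ∑ w, n w := Finset.single_le_sum (fun _ _ => Nat.zero_le _) (mem_univ w)
      omega
    obtain ⟨A0, hA0⟩ := exists_scale a (by omega) ε hε
    set K1 : ℝ := ∏ w, (3 * bb A0) ^ (n w) with hK1
    have hK10 : 0 ≤ K1 := by
      apply Finset.prod_nonneg
      intro w _
      have := one_le_bb A0
      positivity
    set K2 : ℝ := 2 * (K' * m * 3 ^ (3 * a)) with hK2
    have hK20 : 0 ≤ K2 := by positivity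
    set K : ℝ := K1 + K2 with hK
    have hK0 : 0 ≤ K := by positivity
    refine ⟨K, hK0, ?_⟩
    have key : ∀ (s : ℕ) (B : Fin m → ℕ), ∑ v, B v ≤ s →
        ((pts G M B).card : ℝ) ≤ K * W G n ε B := by
      intro s
      induction s with
      | zero =>
        intro B hB
        have h1 := small G M hε A0 B (by
          intro v _
          have h1 : B v ≤ ∑ v, B v := Finset.single_le_sum (fun _ _ => Nat.zero_le _) (mem_univ v)
          omega)
        refine h1.trans ?_
        have := W_nonneg G n ε B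
        gcongr
        linarith
      | succ s ihs =>
        intro B hB
        by_cases hsm : ∀ v, 1 ≤ dg G v → B v ≤ A0
        · have h1 := small G M hε A0 B hsm
          refine h1.trans ?_
          have := W_nonneg G n ε B
          gcongr
          linarith
        · push Not at hsm
          obtain ⟨v0, hv0, hv0B⟩ := hsm
          obtain ⟨v, hv, hmax⟩ := Finset.exists_max_image (univ.filter fun v => 1 ≤ dg G v) B
            ⟨v0, by simpa using hv0⟩
          simp only [mem_filter, mem_univ, true_and] at hv hmax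
          have hvB : A0 ≤ B v := (hv0B.le).trans (hmax v0 hv0)
          obtain ⟨ρ, q, hA1, hρ1, hρA, hq1, hAq, hρq, hqa, h34⟩ := hA0 (B v) hvB
          have hst := step hM hR B v hρ1 hρA.le
          have hP1 : ((pts G M (Function.update B v ρ)).card : ℝ) ≤
              K * W G n ε (Function.update B v ρ) := by
            apply ihs
            have h1 : ∑ w, Function.update B v ρ w < ∑ w, B w := by
              apply Finset.sum_lt_sum
              · intro w _
                by_cases hw : w = v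
                · subst hw
                  rw [Function.update_self]
                  exact hρA.le
                · rw [Function.update_of_ne hw]
              · exact ⟨v, mem_univ v, by rw [Function.update_self]; exact hρA⟩
            omega
          have hP2 := hKd v hv (Function.update B v 0)
          have hA1' : (1 : ℝ) ≤ (B v : ℝ) := by exact_mod_cast hA1
          have hW2 := W_del_le G n ε B v (A := (B v : ℝ)) (by
            intro w hw
            rw [← bb_of_le hA1]
            exact bb_mono (hmax w (dg_pos hw.symm)))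
          rw [W_update, bb_of_le hρ1] at hP1
          rw [W_eq G n ε B v, bb_of_le hA1]
          have hR0 := Rst_nonneg G n ε B v
          have hP2' : ((pts (del G v) M (Function.update B v 0)).card : ℝ) ≤
              K' * ((B v : ℝ) ^ (dg G v) * Rst G n ε B v) := by
            refine hP2.trans ?_
            have := W_nonneg (del G v) n ε (Function.update B v 0)
            have h1 := hKdK' v
            gcongr
          -- 2 dg v ≤ n v
          have h2d : 2 * dg G v ≤ n v := by
            obtain ⟨u, hu⟩ : ∃ u, G.Adj v u := by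
              by_contra hcon
              push Not at hcon
              classical
              have : dg G v = 0 := by
                rw [dg_eq, Finset.card_eq_zero, Finset.filter_eq_empty_iff]
                intro u _
                exact hcon u
              omega
            have h1 := hR u v hu.symm
            have h2 := dg_pos hu.symm
            have h3 : ((M u v).map (Int.cast : ℤ → ℝ)).rank ≤ n v := Matrix.rank_le_width _
            omega
          refine hst.trans ?_
          have hfin := real_step (A := (B v : ℝ)) (ρ := (ρ : ℝ)) (q := q) (K := K) (K' := K')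
            (R := Rst G n ε B v) (ε := ε) (mm := (m : ℝ)) (r := n v - dg G v)
            (b := n v - 2 * dg G v) (d := dg G v) (nv := n v) (a := a) hA1'
            (by exact_mod_cast hρ1) (by exact_mod_cast hρA.le) hq1 hAq hρq hqa h34 hε
            ((Nat.sub_le _ _).trans (hna v)) (by omega) hK0 hK'0 hR0 (by positivity) (by
              have h1 : (n v - dg G v) + (n v - 2 * dg G v) + n v ≤ 3 * a := by
                have := hna v
                omega
              have h2 : (3 : ℝ) ^ ((n v - dg G v) + (n v - 2 * dg G v) + n v) ≤ 3 ^ (3 * a) :=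
                pow_le_pow_right₀ (by norm_num) h1
              calc 2 * (K' * m * 3 ^ ((n v - dg G v) + (n v - 2 * dg G v) + n v))
                  ≤ 2 * (K' * m * 3 ^ (3 * a)) := by gcongr
                _ ≤ K := by
                    rw [hK, hK2]
                    linarith)
          refine le_trans ?_ hfin
          gcongr
    intro B
    exact key _ B le_rfl

end Pool.Agent.R546.GW
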