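import Mathlib
import Pool.Agent.R546.GW.Box

/-!
From boxes to heights.
-/

namespace Pool.Agent.R546.GW

open Finset Module Matrix
open Pool.Agent.H548.WM (ht bx mem_bx dy dy_spec ht_pos Rep)
open Pool.Agent.H548.BL (rep_ne log_bound)

variable {m : ℕ} {n : Fin m → ℕ}

/-- The infimum of all `t` such that `t L + K` is in the cone generated by the classes `H_v`,
where `L = ∑ l_v H_v` and `K = -∑ (n_v - deg v) H_v`. -/
noncomputable def fuj (G : SimpleGraph (Fin m)) (n : Fin m → ℕ) (l : Fin m → ℝ) : ℝ :=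
  sInf {t : ℝ | ∀ v, 0 ≤ t * l v - ((n v - dg G v : ℕ) : ℝ)}

theorem fuj_le (G : SimpleGraph (Fin m)) (n : Fin m → ℕ) {l : Fin m → ℝ} (hl : ∀ v, 0 < l v)
    (v : Fin m) : ((n v - dg G v : ℕ) : ℝ) ≤ fuj G n l * l v := by
  have h1 : ((n v - dg G v : ℕ) : ℝ) / l v ≤ fuj G n l := by
    unfold fuj
    apply le_csInf
    · refine ⟨∑ w, ((n w - dg G w : ℕ) : ℝ) / l w, ?_⟩
      intro w
      have h2 : ((n w - dg G w : ℕ) : ℝ) / l w ≤ ∑ w, ((n w - dg G w : ℕ) : ℝ) / l w := by
        apply Finset.single_le_sum (f := fun w => ((n w - dg G w : ℕ) : ℝ) / l w) _ (mem_univ w)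
        intro u _
        have := hl u
        positivity
      rw [div_le_iff₀ (hl w)] at h2
      linarith
    · intro t ht'
      have := ht' v
      rw [div_le_iff₀ (hl v)]
      linarith
  rwa [div_le_iff₀ (hl v)] at h1

theorem le_prod_of_one_le {f : Fin m → ℝ} (hf : ∀ w, 1 ≤ f w) (v : Fin m) : f v ≤ ∏ w, f w := by
  classical
  rw [← Finset.mul_prod_erase univ f (mem_univ v)]
  have h1 : (1 : ℝ) ≤ ∏ w ∈ univ.erase v, f w := by
    calc (1 : ℝ) = ∏ w ∈ univ.erase v, (1 : ℝ) := by simp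
      _ ≤ ∏ w ∈ univ.erase v, f w := by
          apply Finset.prod_le_prod
          · intro _ _
            norm_num
          · intro w _
            exact hf w
  have h2 := hf v
  nlinarith

/-- The rational points of bounded height. -/
def heightSet (G : SimpleGraph (Fin m)) (M : ∀ u v : Fin m, Matrix (Fin (n u)) (Fin (n v)) ℤ)
    (l : Fin m → ℝ) (T : ℝ) : Set (∀ v, Fin (n v) → ℤ) :=
  {x | (∀ v, Rep (x v)) ∧ Inc G M x ∧ InU G M x ∧ ∏ v, (ht (x v) : ℝ) ^ l v ≤ T}

open Classical in
/-- The upper bound for all line bundles. -/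
theorem upper {G : SimpleGraph (Fin m)} {M : ∀ u v : Fin m, Matrix (Fin (n u)) (Fin (n v)) ℤ}
    (hm : 0 < m) (hM : ∀ u v, M v u = (M u v)ᵀ) (hR : RankCond G M)
    (hn : ∀ v, dg G v + 2 ≤ n v)
    (l : Fin m → ℝ) (hl : ∀ v, 0 < l v) (ε : ℝ) (hε : 0 < ε) :
    ∃ C : ℝ, ∀ T : ℝ, 1 ≤ T → (heightSet G M l T).Finite ∧
      ((heightSet G M l T).ncard : ℝ) ≤ C * T ^ (fuj G n l + ε) := by
  have hne : Nonempty (Fin m) := ⟨⟨0, hm⟩⟩
  set a := fuj G n l with ha
  have hav : ∀ v, ((n v - dg G v : ℕ) : ℝ) ≤ a * l v := fuj_le G n hl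
  have ha0 : 0 < a := by
    obtain ⟨v⟩ := hne
    have h1 := hav v
    have h2 : (0 : ℝ) < ((n v - dg G v : ℕ) : ℝ) := by
      have := hn v
      exact_mod_cast (by omega : 0 < n v - dg G v)
    have h3 := hl v
    by_contra hc
    push Not at hc
    nlinarith
  obtain ⟨v0, -, hv0⟩ := Finset.exists_min_image (univ : Finset (Fin m)) l univ_nonempty
  set ε' : ℝ := ε / 2 * l v0 with hε'
  have hε'0 : 0 < ε' := by
    have := hl v0
    positivity
  have hexp : ∀ v, ((n v - dg G v : ℕ) : ℝ) + ε' ≤ (a + ε / 2) * l v := by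
    intro v
    have h1 := hav v
    have h2 := hv0 v (mem_univ v)
    have h3 : ε / 2 * l v0 ≤ ε / 2 * l v := by gcongr
    rw [hε']
    linarith
  obtain ⟨K, hK0, hK⟩ := box hM (∑ v, dg G v) G le_rfl hR ε' hε'0
  have hm0 : (0 : ℝ) < m := by exact_mod_cast hm
  set δ : ℝ := ε / (2 * m) with hδ
  have hδ0 : 0 < δ := by positivity
  set Cv : Fin m → ℝ := fun v => (2 + 1 / (l v * Real.log 2)) * (1 + 1 / δ) with hCv
  have hlog2 : 0 < Real.log 2 := Real.log_pos (by norm_num)
  have hCv0 : ∀ v, 0 ≤ Cv v := by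
    intro v
    have := hl v
    simp only [hCv]
    positivity
  set C3 : ℝ := ∏ v, (2 : ℝ) ^ ((a + ε / 2) * l v) with hC3
  have hC30 : 0 ≤ C3 := Finset.prod_nonneg fun v _ => by positivity
  refine ⟨(∏ v, Cv v) * (K * C3), ?_⟩
  intro T hT
  have hT0 : 0 < T := by linarith
  set X : Fin m → ℕ := fun v => ⌊T ^ (1 / l v)⌋₊ with hX
  have hX1 : ∀ v, 1 ≤ X v := by
    intro v
    simp only [hX]
    rw [Nat.one_le_floor_iff]
    have := hl v
    exact Real.one_le_rpow hT (by positivity)
  have hroot : ∀ (k : ℕ) (s : ℝ), 0 < s → (k : ℝ) ^ s ≤ T → k ≤ ⌊T ^ (1 / s)⌋₊ := by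
    intro k s hs h
    apply Nat.le_floor
    have e3 : ((k : ℝ) ^ s) ^ (1 / s) ≤ T ^ (1 / s) :=
      Real.rpow_le_rpow (by positivity) h (by positivity)
    rwa [← Real.rpow_mul (by positivity), mul_one_div_cancel hs.ne', Real.rpow_one] at e3
  set P : Finset (∀ v, Fin (n v) → ℤ) := (Fintype.piFinset fun v => bx (n v) (X v)).filter
    fun x => (∀ v, Rep (x v)) ∧ Inc G M x ∧ InU G M x ∧ ∏ v, (ht (x v) : ℝ) ^ l v ≤ T with hP
  have hset : heightSet G M l T = ↑P := by
    ext x
    rw [hP, mem_coe, mem_filter, Fintype.mem_piFinset]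
    constructor
    · intro hx
      have hx' : (∀ v, Rep (x v)) ∧ Inc G M x ∧ InU G M x ∧
        ∏ v, (ht (x v) : ℝ) ^ l v ≤ T := hx
      refine ⟨?_, hx'⟩
      intro v
      rw [mem_bx]
      apply hroot _ _ (hl v)
      refine le_trans ?_ hx'.2.2.2
      apply le_prod_of_one_le (f := fun v => (ht (x v) : ℝ) ^ l v)
      intro w
      apply Real.one_le_rpow _ (hl w).le
      exact_mod_cast ht_pos (rep_ne (hx'.1 w))
    · rintro ⟨-, h⟩
      exact h
  rw [hset]
  refine ⟨P.finite_toSet, ?_⟩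
  rw [Set.ncard_coe_finset]
  set L : Fin m → ℕ := fun v => Nat.log 2 (2 * X v) with hL
  have hcov : P ⊆ (Fintype.piFinset fun v => range (L v + 1)).biUnion fun j =>
      P.filter fun x => ∀ v, dy (x v) = j v := by
    intro x hx
    have hx' := hx
    rw [hP, mem_filter, Fintype.mem_piFinset] at hx'
    obtain ⟨hbx, hrep, -⟩ := hx'
    rw [mem_biUnion]
    refine ⟨fun v => dy (x v), ?_, ?_⟩
    · rw [Fintype.mem_piFinset]
      intro v
      rw [mem_range]
      apply Nat.lt_succ_of_le
      apply Nat.le_log_of_pow_le (by norm_num)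
      exact ((dy_spec (ht_pos (rep_ne (hrep v)))).2).trans
        (Nat.mul_le_mul_left _ (mem_bx.1 (hbx v)))
    · rw [mem_filter]
      exact ⟨hx, fun v => rfl⟩
  have hlev : ∀ j ∈ Fintype.piFinset fun v => range (L v + 1),
      (((P.filter fun x => ∀ v, dy (x v) = j v).card : ℕ) : ℝ) ≤
      K * C3 * T ^ (a + ε / 2) := by
    intro j _
    set Q := P.filter fun x => ∀ v, dy (x v) = j v with hQ
    rcases Q.eq_empty_or_nonempty with h0 | ⟨s, hs⟩
    · rw [h0]
      simp only [card_empty, Nat.cast_zero]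
      positivity
    have hmem : ∀ x ∈ Q, ((∀ v, Rep (x v)) ∧ Inc G M x ∧ InU G M x ∧
        ∏ v, (ht (x v) : ℝ) ^ l v ≤ T) ∧ ∀ v, dy (x v) = j v := by
      intro x hx
      rw [hQ, mem_filter, hP, mem_filter] at hx
      exact ⟨hx.1.2, hx.2⟩
    have hsub : Q ⊆ pts G M fun v => 2 ^ j v := by
      intro x hx
      obtain ⟨⟨x1, x2, x3, x4⟩, x5⟩ := hmem x hx
      rw [mem_pts]
      refine ⟨?_, x2, x3⟩
      intro v
      have := (dy_spec (ht_pos (rep_ne (x1 v)))).1
      rwa [x5 v] at this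
    obtain ⟨⟨s1, s2, s3, s4⟩, s5⟩ := hmem s hs
    have hW : W G n ε' (fun v => 2 ^ j v) ≤ C3 * T ^ (a + ε / 2) := by
      calc W G n ε' (fun v => 2 ^ j v)
          ≤ ∏ v, ((2 : ℝ) ^ ((a + ε / 2) * l v) * ((ht (s v) : ℝ) ^ l v) ^ (a + ε / 2)) := by
            unfold W
            apply Finset.prod_le_prod
            · intro v _
              have := one_le_bb (2 ^ j v)
              positivity
            · intro v _
              have h1 : 1 ≤ ht (s v) := ht_pos (rep_ne (s1 v))
              have h1' : (1 : ℝ) ≤ ht (s v) := by exact_mod_cast h1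
              have h2 := (dy_spec h1).2
              rw [s5 v] at h2
              have h3 : bb (2 ^ j v) ≤ 2 * ht (s v) := by
                rw [bb_of_le Nat.one_le_two_pow]
                exact_mod_cast h2
              have h4 := one_le_bb (2 ^ j v)
              calc bb (2 ^ j v) ^ (((n v - dg G v : ℕ) : ℝ) + ε')
                  ≤ bb (2 ^ j v) ^ ((a + ε / 2) * l v) :=
                    Real.rpow_le_rpow_of_exponent_le h4 (hexp v)
                _ ≤ (2 * (ht (s v) : ℝ)) ^ ((a + ε / 2) * l v) := by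
                    apply Real.rpow_le_rpow (by linarith) h3
                    have := hl v
                    positivity
                _ = _ := by
                    rw [Real.mul_rpow (by norm_num) (by positivity), ← Real.rpow_mul (by positivity)]
                    congr 2
                    ring
        _ = C3 * (∏ v, (ht (s v) : ℝ) ^ l v) ^ (a + ε / 2) := by
            rw [Finset.prod_mul_distrib, Real.finsetProd_rpow]
            intro v _
            positivity
        _ ≤ C3 * T ^ (a + ε / 2) := by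
            gcongr
    calc (Q.card : ℝ) ≤ ((pts G M fun v => 2 ^ j v).card : ℝ) := by
          exact_mod_cast card_le_card hsub
      _ ≤ K * W G n ε' (fun v => 2 ^ j v) := hK _
      _ ≤ K * (C3 * T ^ (a + ε / 2)) := by gcongr
      _ = _ := by ring
  have hbv : ∀ v, (L v : ℝ) + 1 ≤ Cv v * T ^ δ := by
    intro v
    exact log_bound (l v) T (hl v) hT δ hδ0 (X v) (hX1 v) (Nat.floor_le (by positivity))
  calc (P.card : ℝ) ≤ ∑ j ∈ Fintype.piFinset fun v => range (L v + 1),
      (((P.filter fun x => ∀ v, dy (x v) = j v).card : ℕ) : ℝ) := by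
        have h1 := (Finset.card_le_card hcov).trans Finset.card_biUnion_le
        exact_mod_cast h1
    _ ≤ ∑ j ∈ Fintype.piFinset fun v => range (L v + 1), K * C3 * T ^ (a + ε / 2) :=
        Finset.sum_le_sum hlev
    _ = (∏ v, ((L v : ℝ) + 1)) * (K * C3 * T ^ (a + ε / 2)) := by
        rw [Finset.sum_const, Fintype.card_piFinset, nsmul_eq_mul]
        push_cast
        simp only [card_range]
        push_cast
        rfl
    _ ≤ (∏ v, (Cv v * T ^ δ)) * (K * C3 * T ^ (a + ε / 2)) := by
        have h1 : ∏ v, ((L v : ℝ) + 1) ≤ ∏ v, (Cv v * T ^ δ) := by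
          apply Finset.prod_le_prod
          · intro v _
            positivity
          · intro v _
            exact hbv v
        gcongr
    _ = (∏ v, Cv v) * (K * C3) * (T ^ (ε / 2) * T ^ (a + ε / 2)) := by
        rw [Finset.prod_mul_distrib, Finset.prod_const, Finset.card_univ, Fintype.card_fin,
          ← Real.rpow_natCast (T ^ δ) m, ← Real.rpow_mul hT0.le]
        have h1 : δ * m = ε / 2 := by
          rw [hδ]
          field_simp
        rw [h1]
        ring
    _ = (∏ v, Cv v) * (K * C3) * T ^ (a + ε) := by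
        rw [← Real.rpow_add hT0]
        congr 2
        ring

end Pool.Agent.R546.GW
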