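import Mathlib
import Pool.Agent.R546.GW.Defs

/-!
The Jacobian criterion for forests.
-/

namespace Pool.Agent.R546.GW

open Finset Module Matrix

variable {m : ℕ} {n : Fin m → ℕ}

/-- The gradients of the equations of the edges are linearly independent at the complex
point `z`.  The gradient of the equation of the edge `u v` has the component `z_u ᵀ M_{u v}` at
`v`, the component `z_v ᵀ M_{v u}` at `u` and is zero at the other vertices. -/
def SmoothAt (G : SimpleGraph (Fin m)) (M : ∀ u v : Fin m, Matrix (Fin (n u)) (Fin (n v)) ℤ)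
    (z : ∀ v, Fin (n v) → ℂ) : Prop :=
  ∀ c : Fin m → Fin m → ℂ, (∀ u v, c u v = c v u) → (∀ u v, ¬ G.Adj u v → c u v = 0) →
    (∀ v, ∑ u, c u v • (z u ᵥ* (M u v).map (Int.cast : ℤ → ℂ)) = 0) → ∀ u v, c u v = 0

theorem vecMul_ne_zero {N K : ℕ} (A : Matrix (Fin N) (Fin K) ℤ)
    (hA : LinearIndependent ℤ (fun i => A i)) (z : Fin N → ℂ)
    (h : z ᵥ* A.map (Int.cast : ℤ → ℂ) = 0) : z = 0 := by
  have h1 : LinearIndependent ℂ (fun i : Fin N => fun j : Fin K => ((A i j : ℤ) : ℂ)) :=
    (linearIndependent_algebraMap_comp_iff (R := ℤ) (S := ℂ) (v := fun i => A i)).2 hA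
  rw [Fintype.linearIndependent_iff] at h1
  have h2 := h1 z (by
    rw [← h]
    funext j
    simp only [Finset.sum_apply, Pi.smul_apply, smul_eq_mul, Matrix.vecMul, dotProduct,
      Matrix.map_apply])
  funext i
  exact h2 i

open Classical in
/-- The Jacobian criterion holds at all points if every vertex has at most one smaller
neighbour `u` and the rows of the matrix `M_{u v}` are linearly independent. -/
theorem smooth_forest {G : SimpleGraph (Fin m)}
    {M : ∀ u v : Fin m, Matrix (Fin (n u)) (Fin (n v)) ℤ}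
    (hF : ∀ v u u', G.Adj v u → G.Adj v u' → u < v → u' < v → u = u')
    (hI : ∀ u v, G.Adj u v → u < v → LinearIndependent ℤ (fun i => M u v i))
    (z : ∀ v, Fin (n v) → ℂ) (hz : ∀ v, z v ≠ 0) : SmoothAt G M z := by
  intro c hc hc0 h
  by_contra hcon
  push Not at hcon
  obtain ⟨u0, v0, h0⟩ := hcon
  set S : Finset (Fin m) := univ.filter fun v => ∃ u, c u v ≠ 0 with hS
  have hSne : S.Nonempty := ⟨v0, by
    rw [hS, mem_filter]
    exact ⟨mem_univ _, u0, h0⟩⟩
  obtain ⟨v, hv, hmax⟩ := Finset.exists_max_image S id hSne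
  have hvS := hv
  rw [hS, mem_filter] at hvS
  obtain ⟨-, u, hu⟩ := hvS
  have hlt : ∀ w, c w v ≠ 0 → G.Adj v w ∧ w < v := by
    intro w hw
    have h1 : G.Adj w v := by
      by_contra h2
      exact hw (hc0 w v h2)
    have h2 : w ∈ S := by
      rw [hS, mem_filter]
      refine ⟨mem_univ _, v, ?_⟩
      rwa [hc v w]
    exact ⟨h1.symm, lt_of_le_of_ne (hmax w h2) h1.ne⟩
  have huv := hlt u hu
  have hone : ∀ w, w ≠ u → c w v = 0 := by
    intro w hw
    by_contra h1
    have h2 := hlt w h1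
    exact hw (hF v w u h2.1 huv.1 h2.2 huv.2)
  have h1 := h v
  rw [Finset.sum_eq_single u (fun w _ hw => by rw [hone w hw, zero_smul])
    (fun h2 => absurd (mem_univ _) h2)] at h1
  have h2 := (smul_eq_zero.1 h1).resolve_left hu
  exact hz u (vecMul_ne_zero (M u v) (hI u v huv.1.symm huv.2) (z u) h2)

end Pool.Agent.R546.GW
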